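import Pool.Agent.Q174.HX.Tref

/-!
# Hexagonal knot mosaics all of whose interior tiles are triple-crossing tiles

The definitions are in `Pool.Agent.Q174.HX.Defs`; the two diagrams are in
`Pool.Agent.Q174.HX.Knots`.
-/

namespace Pool.Agent.Results.MP_d1968e_gt.TripleCrossingInterior

open Q174.HF Q174.HX

/-- **The answer is no.**  If a suitably connected hexagonal `r`-mosaic all of whose interior
tiles are triple-crossing tiles realizes a knot, then `r = 2` and its diagram has three
crossings (for `r ≥ 3` the diagram always has more than one component).  No such mosaic, of any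
size, realizes the figure-eight knot.  (The trefoil is realized.) -/
theorem result :
    (∀ (M : Mosaic) (K : Diagram), M.InteriorTriple → M.Realizes K →
      M.r = 2 ∧ ∃ D, M.IsDiagram D ∧ D.n = 3 ∧ K.SameKnot D) ∧
    (∀ M : Mosaic, M.InteriorTriple → ¬ M.Realizes figureEight) ∧
    ∃ M : Mosaic, M.InteriorTriple ∧ M.Realizes trefoil := by
  refine ⟨?_, fun M ht => not_figureEight ht, M2, it, realizes_trefoil⟩
  rintro M K ht ⟨hc, h1, D, hD, hK⟩
  have hr := r_eq_two hc ht h1
  exact ⟨hr, D, hD, three hc ht hr hD, hK⟩

end Pool.Agent.Results.MP_d1968e_gt.TripleCrossingInterior
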